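import Pool.Agent.KS6_17.PRM.Loc

/-!
Closed central subgroups of locally minimal pseudoradial groups.
-/

set_option autoImplicit false

namespace Pool.Agent.KS6_17.PRM

open Set Filter Topology Function Order Pool.Agent.Lib.helper23
open Cardinal hiding univ
open Dual PW AbQ MinA MinB Pool.Agent.H.MP_7406cc_gt.A

theorem fewChar_of_le {κ : Cardinal} (hκ : ℵ₀ ≤ κ) (hc : 𝔠 ≤ succ κ) : FewChar κ :=
  fun _ _ _ _ _ hP hM ht => preP hκ hc hP hM ht

theorem central {G : Type} [Group G] [τ : TopologicalSpace G] [IsTopologicalGroup G] [T2Space G]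
    {κ : Cardinal} (hκ : ℵ₀ ≤ κ) (hc : FewChar κ) {U : Set G} (u1 : U ∈ 𝓝 1) (hU : LM U)
    (ht : PR G) (C : Subgroup G) (hC : IsClosed (C : Set G)) (hz : C ≤ Subgroup.center G) :
    ∃ 𝓑 : Set (Set C), (𝓝 (1 : C)).HasBasis (fun s => s ∈ 𝓑) id ∧ #𝓑 ≤ κ := by
  obtain ⟨V, v1, v2⟩ := exists_nhds_one_split u1
  letI : CommGroup C := { (inferInstance : Group C) with
    mul_comm := fun a b => Subtype.ext (Subgroup.mem_center_iff.1 (hz b.2) a.1) }
  haveI : T2Space (Additive C) := (inferInstance : T2Space C)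
  haveI : IsTopologicalGroup C := inferInstance
  have w1 : {x : Additive C | ((x.toMul : C) : G) ∈ V} ∈ 𝓝 (0 : Additive C) := by
    have h1 : ContinuousAt (fun x : C => (x : G)) 1 := continuous_subtype_val.continuousAt
    exact h1 (show V ∈ 𝓝 ((1 : C) : G) from v1)
  exact locF (A := Additive C) hκ hc w1 (mn_cen hU (A := Additive C)
    (fun x => ((x.toMul : C) : G)) hC.isClosedEmbedding_subtypeVal rfl
    (fun x y => div_eq_mul_inv _ _) (fun g x => by
      have := Subgroup.mem_center_iff.1 (hz x.toMul.2) g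
      rw [this, mul_inv_cancel_right])
    ⟨V, v1, fun v hv x hx => v2 v hv _ hx⟩)
    (pr_cl (B := C) hC.isClosedEmbedding_subtypeVal ht)

theorem metrizable_of {G : Type} [Group G] [TopologicalSpace G] [IsTopologicalGroup G] [T2Space G]
    (h : ∃ 𝓑 : Set (Set G), (𝓝 (1 : G)).HasBasis (fun s => s ∈ 𝓑) id ∧ #𝓑 ≤ ℵ₀) :
    TopologicalSpace.MetrizableSpace G := by
  obtain ⟨𝓑, b1, b2⟩ := h
  exact metr (HasCountableBasis.isCountablyGenerated ⟨b1, le_aleph0_iff_set_countable.1 b2⟩)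

theorem cmin {X : Type} (τ t : TopologicalSpace X) (hc : @CompactSpace X τ) (h1 : τ ≤ t)
    (h2 : @T2Space X t) : t = τ := le_antisymm (fun U hU => by
  have := @IsCompact.image X X τ t Uᶜ id (@IsClosed.isCompact X τ _ hc
    (@IsOpen.isClosed_compl X τ _ hU)) (continuous_id_iff_le.2 h1)
  rw [image_id] at this
  exact (@isClosed_compl_iff X t U).1 (@IsCompact.isClosed X t h2 _ this)) h1

end Pool.Agent.KS6_17.PRM
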