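import Mathlib
import Pool.Graph.R_pool_sql_team_39128cda.H.MP_7406cc_gt.A
import Pool.Graph.R_pool_sql_team_39128cda.H.MP_3bc7a7_gt.A
import Pool.Graph.R_seed8.H162R3.PR5

/-!
Pseudoradial locally minimal groups: closed central subgroups.
-/

set_option autoImplicit false

namespace Pool.Agent.KS6_17.PRM

open Set Filter Topology Function Order Pool.Agent.Lib.helper23
open Cardinal hiding univ
open Dual PW AbQ MinA MinB Pool.Agent.H.MP_7406cc_gt.A

/-- Precompact minimal pseudoradial groups have at most `κ` characters. -/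
def FewChar (κ : Cardinal) : Prop :=
  ∀ (B : Type) [AddCommGroup B] [TopologicalSpace B] [IsTopologicalAddGroup B] [T2Space B],
    Pre B → Mn B → PR B → #(DD B) ≤ κ

section
variable {A : Type} [AddCommGroup A] [TopologicalSpace A] [IsTopologicalAddGroup A] [T2Space A]
  {κ : Cardinal}

theorem mainF (hκ : ℵ₀ ≤ κ) (hc : FewChar κ) (hA : Mn A) (ht : PR A) : Ps κ (univ : Set A) := by
  have sub (H : AddSubgroup A) (hH : IsClosed (H : Set A)) (hP : Mn H → Pre H) :=
    ps_sub H (psD hκ id (hc H (hP (mn_sub hA H hH)) (mn_sub hA H hH)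
      (pr_cl hH.isClosedEmbedding_subtypeVal ht)) (sepD (hP (mn_sub hA H hH))))
  obtain ⟨𝒰, u1, u2, u3⟩ := sub (Dv A) (by
    rw [Dv, AddSubgroup.coe_iInf]
    exact isClosed_iInter fun _ => isClosed_closure) fun _ => pre_sub _ fun V hV => by
      obtain ⟨W, w1, -, w2⟩ := half hV
      obtain ⟨k, hk, E, e1, e2⟩ := S1 hA w1
      refine ⟨E, e1, fun x hx => ?_⟩
      obtain ⟨y, hy⟩ := mem_Dv.1 hx k hk W w1
      obtain ⟨e, he, h⟩ := e2 y
      exact ⟨e, he, by simpa using w2 _ h _ hy⟩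
  choose 𝒱 v1 v2 v3 using fun p : Nat.Primes => sub (zsmulAddGroupHom (p.1 : ℤ) : A →+ A).ker
    (isClosed_eq (continuous_zsmul _) continuous_const)
    fun h => expp h p.2 fun x => Subtype.ext x.2
  obtain ⟨N, n1, n2, n3⟩ := gd hκ (𝒰 := 𝒰 ∪ ⋃ p, 𝒱 p) ((mk_union_le _ _).trans (add_le_of_le hκ u1
    (un_le hκ (mk_le_aleph0.trans hκ) _ v1))) (by
      rintro U (h | h)
      · exact u2 U h
      · obtain ⟨p, h⟩ := mem_iUnion.1 h
        exact v2 p U h)
  refine n3 (sub N n1 fun h => tf h (fun k hk x hx => ?_) fun g hg => Subtype.ext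
    (u3 g (mem_Dv.2 fun k hk U hU => ?_) fun U hU => n2 _ g.2 U (Or.inl hU)))
  · have this (n : ℕ) : n ≠ 0 → ∀ x : N, (n : ℤ) • x = 0 → x = 0 := by
      induction n using induction_on_primes with
      | zero => simp
      | one => simp
      | prime_mul p a hp ih =>
        intro h x hx
        rw [Nat.cast_mul, mul_smul] at hx
        exact ih (right_ne_zero_of_mul h) x (Subtype.ext (v3 ⟨p, hp⟩ _ (congrArg Subtype.val hx)
          fun U hU => n2 _ (Subtype.prop _) U (Or.inr (mem_iUnion.2 ⟨_, hU⟩))))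
    refine this _ (Int.natAbs_ne_zero.2 hk) x ?_
    rw [← Int.sign_mul_self, mul_smul, hx, smul_zero]
  · obtain ⟨y, hy⟩ := mem_Dv.1 hg k hk _ (continuous_subtype_val.tendsto 0 hU)
    exact ⟨y, hy⟩

theorem locF (hκ : ℵ₀ ≤ κ) (hc : FewChar κ) {W : Set A} (w1 : W ∈ 𝓝 0)
    (hL : ∀ P : Filter A, pure 0 ≤ P → Tendsto (fun p : A × A => p.1 - p.2) (P ×ˢ P) P →
      (∀ g, ClusterPt g P → g = 0) → W ∈ P → P ≤ 𝓝 0) (ht : PR A) :
    ∃ 𝓑 : Set (Set A), (𝓝 (0 : A)).HasBasis (fun s => s ∈ 𝓑) id ∧ #𝓑 ≤ κ := by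
  obtain ⟨N, n1, n2, n3⟩ := gd hκ (𝒰 := {W})
    (by simpa using one_le_aleph0.trans hκ) (by simpa using w1)
  have hN : Mn N := by
    intro P h1 h2 h3
    rw [nhds_subtype]
    refine map_le_iff_le_comap.1 (hL _ (map_mono (m := Subtype.val) h1) ?_ (fun g hg => ?_)
      (mem_map.2 (univ_mem' fun x => n2 _ x.2 W rfl)))
    · rw [prod_map_map_eq, tendsto_map'_iff]
      exact tendsto_map.comp h2
    · have hg' : g ∈ N := n1.closure_subset (mem_closure_iff_clusterPt.2
        (hg.mono (le_principal_iff.2 (mem_map.2 (univ_mem' fun x => x.2)))))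
      exact congrArg Subtype.val (h3 ⟨g, hg'⟩
        (Topology.IsInducing.subtypeVal.mapClusterPt_iff.1 hg))
  obtain ⟨𝒰, a1, a2, a3⟩ := n3 (ps_sub N (mainF hκ hc hN
    (pr_cl n1.isClosedEmbedding_subtypeVal ht)))
  choose V v0 v1 v2 using fun Y : ↥(insert W 𝒰) => chain (U := Y.1)
    (Y.2.elim (fun h => h.symm ▸ w1) (a2 _))
  let P : Filter A := ⨅ q : ↥(insert W 𝒰) × ℕ, 𝓟 (V q.1 q.2)
  have p1 : 𝓝 0 ≤ P := le_iInf fun q => le_principal_iff.2 (v1 _ _)
  have p2 (Y n) : V Y n ∈ P := mem_iInf_of_mem (Y, n) (mem_principal_self _)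
  have e := le_antisymm p1 (hL P ((pure_le_nhds _).trans p1)
    (tendsto_iInf.2 fun q => tendsto_principal.2 (mem_of_superset
      (prod_mem_prod (p2 q.1 (q.2 + 1)) (p2 q.1 (q.2 + 1))) fun p hp => (v2 _ _).2 _ hp.1 _ hp.2))
    (fun g hg => a3 g trivial fun Y hY => ?_) (mem_of_superset (p2 ⟨W, Or.inl rfl⟩ 0) (v0 _).le))
  · haveI : Nonempty ↥(insert W 𝒰) := ⟨⟨W, Or.inl rfl⟩⟩
    refine ⟨range fun t : Finset (↥(insert W 𝒰) × ℕ) => ⋂ q ∈ t, V q.1 q.2, ?_,
      mk_range_le.trans ?_⟩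
    · rw [e]
      refine (hasBasis_iInf_principal_finite _).to_hasBasis
        (fun t ht => ⟨_, ⟨ht.toFinset, rfl⟩, by simp⟩) ?_
      rintro _ ⟨t, rfl⟩
      exact ⟨t, t.finite_toSet, by simp⟩
    · rw [mk_finset_of_infinite]
      simpa using (mul_le_mul' (mk_insert_le.trans (add_le_of_le hκ a1 (one_le_aleph0.trans hκ)))
        hκ).trans (mul_eq_self hκ).le
  · obtain ⟨y, h3, h4⟩ := clusterPt_iff_nonempty.1 hg (((continuous_sub_right g).tendsto' g 0
      (sub_self g)) (v1 ⟨Y, Or.inr hY⟩ 1)) (p2 ⟨Y, Or.inr hY⟩ 1)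
    simpa [v0] using (v2 ⟨Y, Or.inr hY⟩ 0).2 _ h4 _ h3

theorem minimalGrp_of_mn {B : Type} [AddCommGroup B] [τ : TopologicalSpace B]
    [iB : IsTopologicalAddGroup B] (hA : Mn B) : H162R3.PR.MinimalGrp B := by
  intro t ht htg ht2
  have h0 : @nhds B t 0 ≤ @nhds B τ 0 := by
    refine hA _ (@pure_le_nhds B t 0) ?_ fun g hg => ?_
    · have h1 : @Continuous (B × B) B (@instTopologicalSpaceProd _ _ t t) t
          (fun p => p.1 - p.2) := @continuous_sub B t _ (@IsTopologicalAddGroup.to_continuousSub B t _ htg)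
      have h2 := @Continuous.tendsto _ _ (@instTopologicalSpaceProd _ _ t t) t _ h1 (0, 0)
      rw [@nhds_prod_eq _ _ t t] at h2
      simpa using h2
    · by_contra hne
      obtain ⟨u, v, hu, hv, hgu, h0v, huv⟩ := @t2_separation B t ht2 g 0 hne
      have h1 : u ∈ @nhds B τ g := _root_.nhds_mono ht (@IsOpen.mem_nhds B t g u hu hgu)
      have h2 : v ∈ @nhds B t 0 := @IsOpen.mem_nhds B t 0 v hv h0v
      obtain ⟨z, hz1, hz2⟩ := (@clusterPt_iff_nonempty B τ _ _).1 hg h1 h2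
      exact Set.disjoint_left.1 huv hz1 hz2
  exact IsTopologicalAddGroup.ext htg iB (le_antisymm h0 (_root_.nhds_mono ht))

/-- Density of a precompact group in the dual of its group of characters. -/
theorem dense_dual (f : DD A → T) (hf : ∀ a b, f (a + b) = f a + f b) :
    f ∈ closure (range (AddMonoidHom.pi fun χ : DD A => χ.1)) := by
  classical
  by_contra hcl
  set j : A →+ (DD A → T) := AddMonoidHom.pi fun χ : DD A => χ.1 with hj
  set H : AddSubgroup (DD A → T) := j.range.topologicalClosure with hH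
  have hHc : IsClosed (H : Set (DD A → T)) := AddSubgroup.isClosed_topologicalClosure _
  have hfH : f ∉ H := fun h => hcl (by
    rw [hH, ← SetLike.mem_coe, AddSubgroup.topologicalClosure_coe] at h
    exact h)
  haveI : T3Space ((DD A → T) ⧸ H) := QuotientAddGroup.instT3Space H
  have hpre : Pre ((DD A → T) ⧸ H) := by
    intro U hU
    obtain ⟨F, hF⟩ := (isCompact_univ (X := (DD A → T) ⧸ H)).elim_nhds_subcover
      (fun x => (fun y => y - x) ⁻¹' U) (fun x _ => by
        refine (continuous_sub_right x).continuousAt.preimage_mem_nhds ?_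
        rwa [sub_self])
    refine ⟨F, F.finite_toSet, fun x => ?_⟩
    obtain ⟨y, hy, hxy⟩ := mem_iUnion₂.1 (hF.2 (mem_univ x))
    exact ⟨y, hy, hxy⟩
  have hne : (QuotientAddGroup.mk' H f) ≠ 0 := fun h => hfH ((QuotientAddGroup.eq_zero_iff f).1 h)
  obtain ⟨χ, hχ, hχf⟩ := pw hpre hne
  have hχc : Continuous (χ.comp (QuotientAddGroup.mk' H)) := hχ.comp QuotientAddGroup.continuous_mk
  obtain ⟨k, hk⟩ := CR (A := DD A → T) (I := DD A) (fun i => Pi.evalAddMonoidHom (fun _ : DD A => T) i)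
    (χ.comp (QuotientAddGroup.mk' H)) (U := {z | ‖(χ.comp (QuotientAddGroup.mk' H)) z‖ ≤ 1 / 4}) (by
      refine (hχc.norm.tendsto 0).eventually (ge_mem_nhds ?_)
      rw [map_zero, norm_zero]
      norm_num) (fun a ha => ha)
  set x : DD A := k.sum fun i n => n • i with hx
  have hlin : ∀ g : DD A → T, (∀ a b, g (a + b) = g a + g b) → g x = lc g k := by
    intro g hg
    let g' : DD A →+ T := AddMonoidHom.mk' g hg
    have : g' x = lc g k := by
      rw [hx, Finsupp.sum, map_sum, Finsupp.linearCombination_apply, Finsupp.sum]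
      refine Finset.sum_congr rfl fun i _ => ?_
      rw [map_zsmul]
      rfl
    exact this
  have hx0 : x = 0 := by
    ext a
    have h1 := hlin (j a) (fun χ₁ χ₂ => rfl)
    have h2 := hk (j a)
    have h3 : (QuotientAddGroup.mk' H) (j a) = 0 :=
      (QuotientAddGroup.eq_zero_iff _).2 (AddSubgroup.le_topologicalClosure _ ⟨a, rfl⟩)
    rw [AddMonoidHom.comp_apply, h3, map_zero] at h2
    have h4 : (j a) x = x.1 a := rfl
    rw [← h4, h1]
    exact h2.symm
  have hfx := hlin f hf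
  have hkf := hk f
  have h0 : f 0 = 0 := by simpa using hf 0 0
  apply hχf
  rw [AddMonoidHom.comp_apply] at hkf
  rw [hkf]
  have : lc (fun i => (Pi.evalAddMonoidHom (fun _ : DD A => T) i) f) k = lc f k := rfl
  rw [this, ← hfx, hx0, h0]

end

theorem fewChar_of_split (hs : ¬ H162R3.PR.SC H162R3.PR.W1) : FewChar ℵ₀ := by
  intro B _ _ _ _ hP hM ht
  by_contra hn
  have hX : ¬ Countable (DD B) := fun h => hn (mk_le_aleph0_iff.2 h)
  let j : B →+ (DD B → T) := AddMonoidHom.pi fun χ : DD B => χ.1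
  have hjc : Continuous j := continuous_pi fun χ => χ.2
  have hj0 : ∀ x, j x = 0 → x = 0 := fun x hx => sepD hP x fun χ => congrFun hx χ
  have hjl : comap j (𝓝 0) ≤ 𝓝 0 := emb hM j hjc hj0
  have hj : IsEmbedding j := by
    refine ⟨?_, (injective_iff_map_eq_zero j).2 hj0⟩
    rw [IsTopologicalAddGroup.isInducing_iff_nhds_zero]
    refine le_antisymm ?_ hjl
    have := (hjc.tendsto 0)
    rw [map_zero] at this
    exact tendsto_iff_comap.1 this
  obtain ⟨C, hC, hSC⟩ := H162R3.PR.SC_of_not_countable (minimalGrp_of_mn hM) ht j hj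
    (fun f hf => dense_dual f hf) hX
  exact hs (H162R3.PR.SC_W1_of hC hSC)

end Pool.Agent.KS6_17.PRM
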